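import Pool.Agent.BEN.StmtsA

/-! Squad BEN, module FXJ: the fixed point in the space of curves. -/

namespace Pool.Agent.BEN.H89

open Set Filter Topology MeasureTheory
open scoped InnerProductSpace ENNReal
open Pool.Agent.BE01 Pool.Agent.BEF

theorem fxj : FxjStmt := by
  intro J _ _ _ A t0 m N0 q Θ ht0 hm hN0 hq0 hq1 hself hcon
  obtain ⟨f, hf0, hf1⟩ : ∃ f : ℕ → ℝ → J, f 0 = (fun _ => 0) ∧ ∀ n, f (n + 1) = Θ (f n) :=
    ⟨fun n => Nat.rec (fun _ => 0) (fun _ g => Θ g) n, rfl, fun n => rfl⟩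
  have htp : ∀ t, t > t0 → 0 < t := fun t ht => by linarith
  have htm : ∀ t, t > t0 → 0 ≤ t ^ (-m) := fun t ht => Real.rpow_nonneg (htp t ht).le _
  have hinv : ∀ n, A.Cu t0 (f n) ∧ ∀ t > t0, ‖f n t‖ ≤ N0 * t ^ (-m) := by
    intro n
    induction n with
    | zero =>
      rw [hf0]
      refine ⟨A.zero t0, fun t ht => ?_⟩
      rw [norm_zero]
      exact mul_nonneg hN0 (htm t ht)
    | succ n ih =>
      rw [hf1]
      exact hself (f n) ih.1 ih.2
  have hdif : ∀ n, ∀ t > t0, ‖f (n + 1) t - f n t‖ ≤ q ^ n * N0 * t ^ (-m) := by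
    intro n
    induction n with
    | zero =>
      intro t ht
      have h1 := (hinv 1).2 t ht
      rw [hf0]
      simpa using h1
    | succ n ih =>
      intro t ht
      have h1 := hcon (f (n + 1)) (f n) (q ^ n * N0) (by positivity) (hinv (n + 1)).1
        (hinv (n + 1)).2 (hinv n).1 (hinv n).2 ih t ht
      rw [← hf1, ← hf1] at h1
      refine h1.trans (le_of_eq ?_)
      ring
  have hdist : ∀ t > t0, ∀ n, dist (f n t) (f (n + 1) t) ≤ N0 * t ^ (-m) * q ^ n := by
    intro t ht n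
    rw [dist_comm, dist_eq_norm]
    refine (hdif n t ht).trans (le_of_eq ?_)
    ring
  have hex : ∀ t, ∃ a : J, t > t0 → Tendsto (fun n => f n t) atTop (𝓝 a) := by
    intro t
    by_cases ht : t > t0
    · obtain ⟨a, ha⟩ := cauchySeq_tendsto_of_complete
        (cauchySeq_of_le_geometric q (N0 * t ^ (-m)) hq1 (hdist t ht))
      exact ⟨a, fun _ => ha⟩
    · exact ⟨0, fun h => absurd h ht⟩
  choose y hy using hex
  have herr : ∀ t > t0, ∀ n, dist (f n t) (y t) ≤ N0 * t ^ (-m) * q ^ n / (1 - q) := by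
    intro t ht n
    exact dist_le_of_le_geometric_of_tendsto q (N0 * t ^ (-m)) hq1 (hdist t ht) (hy t ht) n
  have h1q : 0 < 1 - q := by linarith
  have hpow : Tendsto (fun n : ℕ => N0 * q ^ n / (1 - q)) atTop (𝓝 0) := by
    have h1 := ((tendsto_pow_atTop_nhds_zero_of_lt_one hq0 hq1).const_mul N0).div_const (1 - q)
    simpa using h1
  have htle : ∀ t > t0, t ^ (-m) ≤ 1 := fun t ht =>
    Real.rpow_le_one_of_one_le_of_nonpos (by linarith) (by linarith)
  have huni : TendstoUniformlyOn f y atTop (Ioi t0) := by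
    rw [Metric.tendstoUniformlyOn_iff]
    intro ε hε
    filter_upwards [hpow.eventually_lt_const hε] with n hn t ht
    rw [dist_comm]
    refine (herr t ht n).trans_lt (lt_of_le_of_lt ?_ hn)
    refine div_le_div_of_nonneg_right ?_ h1q.le
    have h2 := htle t ht
    have h3 : 0 ≤ q ^ n := pow_nonneg hq0 n
    calc N0 * t ^ (-m) * q ^ n = N0 * q ^ n * t ^ (-m) := by ring
      _ ≤ N0 * q ^ n * 1 := mul_le_mul_of_nonneg_left h2 (by positivity)
      _ = N0 * q ^ n := mul_one _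
  have hyC : A.Cu t0 y := A.lim t0 f y (fun n => (hinv n).1) huni
  have hyN : ∀ t > t0, ‖y t‖ ≤ N0 * t ^ (-m) := fun t ht =>
    le_of_tendsto' (hy t ht).norm fun n => (hinv n).2 t ht
  refine ⟨y, hyC, hyN, fun t ht => ?_⟩
  have hb : ∀ n, dist (f (n + 1) t) (Θ y t) ≤ q * (N0 * q ^ n / (1 - q)) * t ^ (-m) := by
    intro n
    have h0 : 0 ≤ N0 * q ^ n / (1 - q) := by positivity
    have h1 := hcon y (f n) (N0 * q ^ n / (1 - q)) h0 hyC hyN (hinv n).1 (hinv n).2
      (fun s hs => by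
        have h2 := herr s hs n
        rw [dist_comm, dist_eq_norm] at h2
        refine h2.trans (le_of_eq ?_)
        ring) t ht
    rw [← hf1] at h1
    rw [dist_comm, dist_eq_norm]
    exact h1
  have hz : Tendsto (fun n : ℕ => q * (N0 * q ^ n / (1 - q)) * t ^ (-m)) atTop (𝓝 0) := by
    have h1 := (hpow.const_mul q).mul_const (t ^ (-m))
    simpa using h1
  have h1 : Tendsto (fun n => f (n + 1) t) atTop (𝓝 (Θ y t)) := by
    rw [tendsto_iff_dist_tendsto_zero]
    exact squeeze_zero (fun n => dist_nonneg) hb hz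
  have h2 : Tendsto (fun n => f (n + 1) t) atTop (𝓝 (y t)) := (tendsto_add_atTop_iff_nat 1).2 (hy t ht)
  exact tendsto_nhds_unique h1 h2

end Pool.Agent.BEN.H89
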