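import Pool.Agent.BEN.StmtsB
import Pool.Agent.Helper35_BEL.CH2

/-! Squad BEN, module LVU: the measures of the level sets. -/

namespace Pool.Agent.BEN.H89

open Set Filter Topology MeasureTheory
open scoped InnerProductSpace ENNReal
open Pool.Agent.BE01 Pool.Agent.BEL Pool.Agent.BEF Pool.Agent.BEH

/-- The derivative of the smooth transition: bounds, and it vanishes outside `(0, 1)`. -/
theorem st_bd : ∃ c1 : ℝ, 0 < c1 ∧ ∀ x, 0 ≤ deriv Real.smoothTransition x ∧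
    deriv Real.smoothTransition x ≤ c1 ∧ (x < 0 → deriv Real.smoothTransition x = 0) ∧
    (1 < x → deriv Real.smoothTransition x = 0) := by
  have hc : Continuous (deriv Real.smoothTransition) :=
    (Real.smoothTransition.contDiff (n := 1)).continuous_deriv (by norm_num)
  have hz0 : ∀ x : ℝ, x < 0 → deriv Real.smoothTransition x = 0 := fun x h0 => by
    have h2 : Real.smoothTransition =ᶠ[𝓝 x] fun _ => 0 := by
      filter_upwards [Iio_mem_nhds h0] with y hy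
      exact Real.smoothTransition.zero_of_nonpos (le_of_lt hy)
    rw [h2.deriv_eq, deriv_const]
  have hz1 : ∀ x : ℝ, 1 < x → deriv Real.smoothTransition x = 0 := fun x h1 => by
    have h2 : Real.smoothTransition =ᶠ[𝓝 x] fun _ => 1 := by
      filter_upwards [Ioi_mem_nhds h1] with y hy
      exact Real.smoothTransition.one_of_one_le (le_of_lt hy)
    rw [h2.deriv_eq, deriv_const]
  obtain ⟨c, hc⟩ := (isCompact_Icc (a := (0 : ℝ)) (b := 1)).exists_bound_of_continuousOn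
    hc.continuousOn
  refine ⟨|c| + 1, by positivity, fun x => ⟨Real.smoothTransition.monotone.deriv_nonneg, ?_,
    hz0 x, hz1 x⟩⟩
  by_cases h0 : x < 0
  · rw [hz0 x h0]
    positivity
  by_cases h1 : 1 < x
  · rw [hz1 x h1]
    positivity
  · push Not at h0 h1
    have := hc x ⟨h0, h1⟩
    rw [Real.norm_eq_abs] at this
    exact (le_abs_self _).trans (this.trans ((le_abs_self c).trans (by linarith)))

/-- The truncation: `0` for `s ≤ k`, `s - k` for `s ≥ h`. -/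
noncomputable def Tr (k h s : ℝ) : ℝ :=
  (s - k) * Real.smoothTransition ((s - k) * (h - k)⁻¹)

theorem Tr_smooth (k h : ℝ) : ContDiff ℝ ((⊤ : ℕ∞) : WithTop ℕ∞) (Tr k h) := by
  unfold Tr
  exact (contDiff_id.sub contDiff_const).mul ((Real.smoothTransition.contDiff (n := ⊤)).comp
    ((contDiff_id.sub contDiff_const).mul contDiff_const))

theorem Tr_zero {k h s : ℝ} (hkh : k < h) (hs : s ≤ k) : Tr k h s = 0 := by
  unfold Tr
  have h1 : 0 ≤ (h - k)⁻¹ := inv_nonneg.2 (by linarith)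
  rw [Real.smoothTransition.zero_of_nonpos (mul_nonpos_of_nonpos_of_nonneg (by linarith) h1),
    mul_zero]

theorem Tr_ge {k h s : ℝ} (hkh : k < h) (hs : h ≤ s) : Tr k h s = s - k := by
  unfold Tr
  have h1 : 0 < h - k := by linarith
  rw [Real.smoothTransition.one_of_one_le, mul_one]
  rw [← div_eq_mul_inv, le_div_iff₀ h1]
  linarith

theorem Tr_nonneg {k h : ℝ} (hkh : k < h) (s : ℝ) : 0 ≤ Tr k h s := by
  rcases le_total s k with h1 | h1
  · rw [Tr_zero hkh h1]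
  · exact mul_nonneg (by linarith) (Real.smoothTransition.nonneg _)

theorem Tr_deriv {k h : ℝ} (s : ℝ) : deriv (Tr k h) s =
    Real.smoothTransition ((s - k) * (h - k)⁻¹) +
      (s - k) * (h - k)⁻¹ * deriv Real.smoothTransition ((s - k) * (h - k)⁻¹) := by
  have h1 : HasDerivAt (fun s : ℝ => (s - k) * (h - k)⁻¹) (1 * (h - k)⁻¹) s :=
    ((hasDerivAt_id s).sub_const k).mul_const _
  have h2 : HasDerivAt Real.smoothTransition
      (deriv Real.smoothTransition ((s - k) * (h - k)⁻¹)) ((s - k) * (h - k)⁻¹) :=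
    ((Real.smoothTransition.contDiff (n := 1)).differentiable (by norm_num)
      ((s - k) * (h - k)⁻¹)).hasDerivAt
  have h3 := h2.comp s h1
  have h4 : HasDerivAt (fun s : ℝ => s - k) 1 s := (hasDerivAt_id s).sub_const k
  have h5 := (h4.mul h3).deriv
  have h6 : Tr k h = (fun s : ℝ => s - k) * (Real.smoothTransition ∘
      fun s : ℝ => (s - k) * (h - k)⁻¹) := rfl
  rw [h6, h5]
  simp only [Function.comp_apply]
  ring

theorem Tr_bd : ∃ c2 : ℝ, 0 < c2 ∧ ∀ k h : ℝ, k < h → ∀ s, 0 ≤ deriv (Tr k h) s ∧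
    deriv (Tr k h) s ≤ c2 := by
  obtain ⟨c1, hc1, hst⟩ := st_bd
  refine ⟨1 + c1, by positivity, fun k h hkh s => ?_⟩
  rw [Tr_deriv]
  obtain ⟨t, ht⟩ : ∃ t, t = (s - k) * (h - k)⁻¹ := ⟨_, rfl⟩
  rw [← ht]
  have h1 := Real.smoothTransition.nonneg t
  have h2 := Real.smoothTransition.le_one t
  obtain ⟨h3, h4, h5, h6⟩ := hst t
  by_cases h0 : t < 0
  · rw [h5 h0, mul_zero, add_zero]
    exact ⟨h1, by linarith⟩
  by_cases h7 : 1 < t
  · rw [h6 h7, mul_zero, add_zero]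
    exact ⟨h1, by linarith⟩
  · push Not at h0 h7
    constructor
    · positivity
    · have h8 : t * deriv Real.smoothTransition t ≤ 1 * c1 :=
        mul_le_mul h7 h4 h3 zero_le_one
      linarith

/-- Hölder with three factors, the third one is the indicator of `A`. -/
theorem hold3 {T : Type} [MeasurableSpace T] (μ : Measure T) {f φ : T → ℝ}
    (hf : AEStronglyMeasurable f μ) (hφ : AEStronglyMeasurable φ μ) {A : Set T}
    (hA : MeasurableSet A) (h0 : ∀ᵐ x ∂μ, x ∉ A → φ x = 0) {pr P : ℝ} (hpr : 2 ≤ pr)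
    (hP : 2 ≤ P) :
    eLpNorm (φ • f) 1 μ ≤ eLpNorm f (ENNReal.ofReal pr) μ *
      (eLpNorm φ (ENNReal.ofReal P) μ * μ A ^ (1 - 1 / pr - 1 / P)) := by
  have hpr0 : 0 < pr - 1 := by linarith
  have hpr1 : 0 < pr := by linarith
  have hP0 : 0 < P := by linarith
  obtain ⟨s, hs⟩ : ∃ s, s = pr / (pr - 1) := ⟨_, rfl⟩
  have hs0 : 0 < s := by
    rw [hs]
    positivity
  have hsi : s⁻¹ = 1 - 1 / pr := by
    rw [hs, inv_div]
    field_simp
  have hsP : s ≤ P := by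
    have h1 : s ≤ 2 := by
      rw [hs, div_le_iff₀ hpr0]
      linarith
    linarith
  have hT : ENNReal.HolderTriple (ENNReal.ofReal s) (ENNReal.ofReal pr) 1 := ⟨by
    rw [← ENNReal.ofReal_inv_of_pos hs0, ← ENNReal.ofReal_inv_of_pos hpr1,
      ← ENNReal.ofReal_add (by positivity) (by positivity), hsi, inv_one]
    have : 1 - 1 / pr + pr⁻¹ = 1 := by
      rw [one_div]
      ring
    rw [this, ENNReal.ofReal_one]⟩
  have h1 : eLpNorm (φ • f) 1 μ ≤
      eLpNorm φ (ENNReal.ofReal s) μ * eLpNorm f (ENNReal.ofReal pr) μ :=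
    eLpNorm_smul_le_mul_eLpNorm hf hφ
  have h2 : eLpNorm φ (ENNReal.ofReal s) μ ≤
      eLpNorm φ (ENNReal.ofReal P) μ * μ A ^ (1 - 1 / pr - 1 / P) := by
    have e1 : eLpNorm φ (ENNReal.ofReal s) μ = eLpNorm φ (ENNReal.ofReal s) (μ.restrict A) := by
      rw [← eLpNorm_indicator_eq_eLpNorm_restrict hA]
      refine eLpNorm_congr_ae ?_
      filter_upwards [h0] with x hx
      by_cases hxA : x ∈ A
      · rw [indicator_of_mem hxA]
      · rw [indicator_of_notMem hxA, hx hxA]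
    have e2 := eLpNorm_le_eLpNorm_mul_rpow_measure_univ (μ := μ.restrict A)
      (ENNReal.ofReal_le_ofReal hsP) hφ.restrict
    rw [ENNReal.toReal_ofReal hs0.le, ENNReal.toReal_ofReal hP0.le, Measure.restrict_apply_univ,
      one_div s, hsi] at e2
    rw [e1]
    refine e2.trans (mul_le_mul_left ?_ _)
    exact eLpNorm_mono_measure _ Measure.restrict_le_self
  calc eLpNorm (φ • f) 1 μ ≤ _ := h1
    _ ≤ (eLpNorm φ (ENNReal.ofReal P) μ * μ A ^ (1 - 1 / pr - 1 / P)) *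
        eLpNorm f (ENNReal.ofReal pr) μ := mul_le_mul_left h2 _
    _ = _ := mul_comm _ _

theorem lvu (qef : QefStmt) (sbu : SbuStmt) : LvuStmt := by
  intro d Ω hd hΩ
  obtain ⟨C, hC, hS⟩ := sbu d Ω hd hΩ
  obtain ⟨c2, hc2, hTr⟩ := Tr_bd
  refine ⟨C ^ 2 * c2, by positivity, ?_⟩
  intro Ω' hΩ' hsub ι hι f G F hfG hF j hj hfF k h hk hkh
  have hfin : IsFiniteMeasure (mu Ω') := ⟨by
    have h1 : mu Ω' univ = volume Ω' := by simp [mu]
    rw [h1]
    exact hΩ'.2.1.measure_lt_top⟩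
  have hkh' : 0 < h - k := by linarith
  have hdR : (2 : ℝ) ≤ d := by exact_mod_cast hd
  have hjR : (j : ℝ) + 2 ≤ d := by exact_mod_cast hj
  have hj0 : (0 : ℝ) ≤ j := Nat.cast_nonneg j
  -- the exponents
  obtain ⟨pr, hpr⟩ : ∃ pr : ℝ, pr = 2 * d / (j + 2) := ⟨_, rfl⟩
  obtain ⟨P, hPd⟩ : ∃ P : ℝ, P = pS d := ⟨_, rfl⟩
  have hqe : qe d (j + 2) = ENNReal.ofReal pr := by
    rw [(qef d (by omega)).2.2.2.1 (j + 2) (by omega) hj, hpr]
    push_cast
    rfl
  have hpr2 : 2 ≤ pr := by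
    rw [hpr, le_div_iff₀ (by positivity)]
    linarith
  have h45 : 0 < 4 * (d : ℝ) - 5 := by linarith
  have hP2 : 2 ≤ P := by
    rw [hPd]
    unfold pS
    rw [le_div_iff₀ h45]
    linarith
  have hP0 : 0 < P := by linarith
  obtain ⟨θ, hθ⟩ : ∃ θ : ℝ, θ = 1 - 1 / pr - 1 / P := ⟨_, rfl⟩
  have hd0 : (d : ℝ) ≠ 0 := by
    have : (0 : ℝ) < d := by linarith
    exact this.ne'
  have hθe : θ = (4 * (d : ℝ) - 4 * j - 3) / (8 * d) := by
    rw [hθ, hpr, hPd]
    unfold pS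
    field_simp
    ring
  have hθ0 : 0 ≤ θ := by
    rw [hθe]
    exact div_nonneg (by linarith) (by linarith)
  have hθP : θ * P = (4 * (d : ℝ) - 4 * j - 3) / (4 * d - 5) := by
    rw [hθe, hPd]
    unfold pS
    field_simp
  -- the truncation
  obtain ⟨G', hG1, hG2⟩ := Pool.Agent.BEL.H35.ch2 d Ω' ι (Tr k h) c2 hΩ' hι (Tr_smooth k h)
    (Tr_zero hkh hk) (fun s => by rw [abs_of_nonneg (hTr k h hkh s).1]; exact (hTr k h hkh s).2) G
  have e1 : ‖G'‖ ^ 2 ≤ c2 * ⟪G, G'⟫_ℝ := by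
    have a1 : ‖G'‖ ^ 2 = ⟪(G' : Lp (En d) 2 (mu Ω')), (G' : Lp (En d) 2 (mu Ω'))⟫_ℝ := by
      rw [real_inner_self_eq_norm_sq]
      rfl
    have a2 : ⟪G, G'⟫_ℝ = ⟪(G : Lp (En d) 2 (mu Ω')), (G' : Lp (En d) 2 (mu Ω'))⟫_ℝ := rfl
    rw [a1, a2, L2.inner_def, L2.inner_def, ← integral_const_mul]
    refine integral_mono_ae (L2.integrable_inner (𝕜 := ℝ) _ _)
      ((L2.integrable_inner (𝕜 := ℝ) _ _).const_mul _) ?_
    filter_upwards [hG2] with x hx
    show ⟪(G' : Lp (En d) 2 (mu Ω')) x, (G' : Lp (En d) 2 (mu Ω')) x⟫_ℝ ≤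
      c2 * ⟪(G : Lp (En d) 2 (mu Ω')) x, (G' : Lp (En d) 2 (mu Ω')) x⟫_ℝ
    rw [hx, real_inner_smul_left, real_inner_smul_right]
    have b1 : 0 ≤ ⟪(G : Lp (En d) 2 (mu Ω')) x, (G : Lp (En d) 2 (mu Ω')) x⟫_ℝ :=
      real_inner_self_nonneg
    obtain ⟨b2, b3⟩ := hTr k h hkh (ι G x)
    have b4 : 0 ≤ deriv (Tr k h) (ι G x) *
        ⟪(G : Lp (En d) 2 (mu Ω')) x, (G : Lp (En d) 2 (mu Ω')) x⟫_ℝ := mul_nonneg b2 b1
    exact mul_le_mul_of_nonneg_right b3 b4
  rw [hfG G'] at e1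
  have hm : ∀ t : ℝ, MeasurableSet {x | t < ι G x} := fun t =>
    measurableSet_lt measurable_const (Lp.stronglyMeasurable (ι G)).measurable
  obtain ⟨a, ha⟩ : ∃ a : ℝ, a = (mu Ω').real {x | k < ι G x} := ⟨_, rfl⟩
  have ha0 : 0 ≤ a := by rw [ha]; exact measureReal_nonneg
  have haE : (mu Ω') {x | k < ι G x} = ENNReal.ofReal a := by
    rw [ha, ofReal_measureReal]
  obtain ⟨E, hE⟩ : ∃ E : ℝ≥0∞, E = eLpNorm (ι G') (ENNReal.ofReal P) (mu Ω') := ⟨_, rfl⟩
  have hEb : E ≤ ENNReal.ofReal (C * ‖G'‖) := by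
    rw [hE, hPd]
    exact hS Ω' hΩ' hsub ι hι G'
  have hEt : E ≠ ∞ := ne_top_of_le_ne_top ENNReal.ofReal_ne_top hEb
  obtain ⟨X, hX⟩ : ∃ X : ℝ, X = E.toReal := ⟨_, rfl⟩
  have hX0 : 0 ≤ X := by rw [hX]; exact ENNReal.toReal_nonneg
  have hEX : E = ENNReal.ofReal X := by rw [hX, ENNReal.ofReal_toReal hEt]
  have hXC : X ≤ C * ‖G'‖ := by
    rw [hEX] at hEb
    exact (ENNReal.ofReal_le_ofReal_iff (by positivity)).1 hEb
  -- Hölder
  have e2 : ⟪f, ι G'⟫_ℝ ≤ F * (X * a ^ θ) := by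
    have b1 : Integrable ((ι G' : En d → ℝ) • (f : En d → ℝ)) (mu Ω') :=
      (Lp.memLp (ι G')).integrable_mul (Lp.memLp f)
    have b2 : ⟪f, ι G'⟫_ℝ ≤ ∫ x, ‖((ι G' : En d → ℝ) • (f : En d → ℝ)) x‖ ∂(mu Ω') := by
      rw [L2.inner_def]
      refine integral_mono (L2.integrable_inner (𝕜 := ℝ) _ _) b1.norm fun x => ?_
      have : ⟪f x, ι G' x⟫_ℝ = ((ι G' : En d → ℝ) • (f : En d → ℝ)) x := rfl
      show ⟪f x, ι G' x⟫_ℝ ≤ ‖((ι G' : En d → ℝ) • (f : En d → ℝ)) x‖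
      rw [this]
      exact Real.le_norm_self _
    have b3 : ENNReal.ofReal (⟪f, ι G'⟫_ℝ) ≤ ENNReal.ofReal (F * (X * a ^ θ)) := by
      refine (ENNReal.ofReal_le_ofReal b2).trans ?_
      rw [ofReal_integral_norm_eq_lintegral_enorm b1, ← eLpNorm_one_eq_lintegral_enorm]
      refine (hold3 (mu Ω') (Lp.aestronglyMeasurable f) (Lp.aestronglyMeasurable (ι G')) (hm k)
        ?_ hpr2 hP2).trans ?_
      · filter_upwards [hG1] with x hx hxA
        rw [hx]
        exact Tr_zero hkh (not_lt.1 hxA)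
      · rw [← hE, hEX, haE, ← hθ, ENNReal.ofReal_rpow_of_nonneg ha0 hθ0,
          ← ENNReal.ofReal_mul hX0, ENNReal.ofReal_mul hF, ← hqe]
        exact mul_le_mul_left hfF _
    exact (ENNReal.ofReal_le_ofReal_iff (by positivity)).1 b3
  have haθ : 0 ≤ a ^ θ := Real.rpow_nonneg ha0 _
  have e3 : X ≤ C ^ 2 * c2 * F * a ^ θ := by
    have b1 : X ^ 2 ≤ (C * ‖G'‖) ^ 2 := pow_le_pow_left₀ hX0 hXC 2
    have b2 : (C * ‖G'‖) ^ 2 ≤ C ^ 2 * (c2 * (F * (X * a ^ θ))) := by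
      rw [mul_pow]
      exact mul_le_mul_of_nonneg_left (e1.trans (mul_le_mul_of_nonneg_left e2 hc2.le))
        (by positivity)
    rcases hX0.eq_or_lt with h0 | h0
    · rw [← h0]
      positivity
    · have b3 : X * X ≤ (C ^ 2 * c2 * F * a ^ θ) * X := by
        calc X * X = X ^ 2 := by ring
          _ ≤ C ^ 2 * (c2 * (F * (X * a ^ θ))) := b1.trans b2
          _ = _ := by ring
      exact le_of_mul_le_mul_right b3 h0
  -- Chebyshev
  have e4 : (mu Ω').real {x | h < ι G x} ≤ (X / (h - k)) ^ P := by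
    have b0 : ENNReal.ofReal P ≠ 0 := by
      rw [Ne, ENNReal.ofReal_eq_zero]
      linarith
    have b1 := mul_meas_ge_le_pow_eLpNorm' (mu Ω') b0 ENNReal.ofReal_ne_top
      (Lp.aestronglyMeasurable (ι G')) (ENNReal.ofReal (h - k))
    rw [ENNReal.toReal_ofReal hP0.le, ← hE, hEX, ENNReal.ofReal_rpow_of_nonneg hX0 hP0.le,
      ENNReal.ofReal_rpow_of_nonneg hkh'.le hP0.le] at b1
    have b2 : (mu Ω') {x | h < ι G x} ≤
        (mu Ω') {x | ENNReal.ofReal (h - k) ≤ ‖ι G' x‖ₑ} := by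
      refine measure_mono_ae ?_
      filter_upwards [hG1] with x hx hx1
      have hx2 : h < ι G x := hx1
      show ENNReal.ofReal (h - k) ≤ ‖ι G' x‖ₑ
      rw [hx, Tr_ge hkh hx2.le, Real.enorm_eq_ofReal (by linarith)]
      exact ENNReal.ofReal_le_ofReal (by linarith)
    have b3 : ENNReal.ofReal ((h - k) ^ P) * (mu Ω') {x | h < ι G x} ≤ ENNReal.ofReal (X ^ P) :=
      (mul_le_mul_right b2 _).trans b1
    have b4 : (mu Ω') {x | h < ι G x} = ENNReal.ofReal ((mu Ω').real {x | h < ι G x}) := by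
      rw [ofReal_measureReal]
    rw [b4, ← ENNReal.ofReal_mul (by positivity),
      ENNReal.ofReal_le_ofReal_iff (by positivity)] at b3
    rw [Real.div_rpow hX0 hkh'.le, le_div_iff₀ (by positivity), mul_comm]
    exact b3
  rw [← ha, ← hPd, ← hθP]
  refine e4.trans ?_
  have e5 : X / (h - k) ≤ C ^ 2 * c2 * F / (h - k) * a ^ θ := by
    rw [div_mul_eq_mul_div]
    exact div_le_div_of_nonneg_right e3 hkh'.le
  refine (Real.rpow_le_rpow (by positivity) e5 hP0.le).trans (le_of_eq ?_)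
  rw [Real.mul_rpow (by positivity) haθ, ← Real.rpow_mul ha0]

end Pool.Agent.BEN.H89
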